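import Pool.Agent.V5helper35.AS.Stm

/-!
# Project AS, job CPOW: control of the centralizer of the `k`-th powers
-/

set_option autoImplicit false

namespace Pool.Agent.V5helper7.AS

open Pool.Agent.R387.TC Pool.Agent.N77.CS Pool.Agent.V5helper35.AS

variable {P : Type} [Group P]

/-- left multiplication on the part `{0} × P` -/
noncomputable def act0 (k : ℕ) : P →* Equiv.Perm (ZMod (k + 1) × P) where
  toFun g :=
    { toFun := fun x => if x.1 = 0 then (x.1, g * x.2) else x
      invFun := fun x => if x.1 = 0 then (x.1, g⁻¹ * x.2) else x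
      left_inv := by
        rintro ⟨j, p⟩
        by_cases h : j = 0 <;> simp [h]
      right_inv := by
        rintro ⟨j, p⟩
        by_cases h : j = 0 <;> simp [h] }
  map_one' := by
    ext ⟨j, p⟩ : 1
    by_cases h : j = 0 <;> simp [h]
  map_mul' g g' := by
    ext ⟨j, p⟩ : 1
    by_cases h : j = 0 <;> simp [h, mul_assoc]

theorem act0_zero (k : ℕ) (g p : P) : act0 k g (0, p) = (0, g * p) := by
  show (if (0 : ZMod (k + 1)) = 0 then ((0 : ZMod (k + 1)), g * p) else (0, p)) = _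
  rw [if_pos rfl]

theorem act0_ne (k : ℕ) (g p : P) {j : ZMod (k + 1)} (h : j ≠ 0) : act0 k g (j, p) = (j, p) := by
  show (if j = 0 then (j, g * p) else (j, p)) = _
  rw [if_neg h]

/-- the rotation -/
def rot (P : Type) (k : ℕ) : Equiv.Perm (ZMod (k + 1) × P) :=
  Equiv.prodCongr (Equiv.addRight 1) (Equiv.refl P)

theorem rot_pow (k m : ℕ) (j : ZMod (k + 1)) (p : P) : (rot P k ^ m) (j, p) = (j + m, p) := by
  induction m with
  | zero => simp
  | succ m ih =>
    rw [pow_succ', Equiv.Perm.mul_apply, ih]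
    show ((j + (m : ZMod (k + 1)) + 1, p) : ZMod (k + 1) × P) = _
    push_cast
    rw [add_assoc]

/-- the action -/
noncomputable def rotHom {n : ℕ} (k : ℕ) (lam : F n →* P) :
    F (n + 1) →* Equiv.Perm (ZMod (k + 1) × P) :=
  homExt ((act0 k).comp lam) (rot P k)

theorem t_CPOW (hMP : S_MPOW) : S_CPOW := by
  intro n hn k hk M hMn hMf
  let P := F (n + 1) ⧸ M
  let q : F (n + 1) →* P := QuotientGroup.mk' M
  let θ : F (n + 1) →* Equiv.Perm (ZMod (k + 1) × P) := rotHom k (q.comp (inc n))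
  have hθ : θ.ker.FiniteIndex := inferInstance
  have hθn : (M ⊓ θ.ker).Normal := inferInstance
  have hθf : (M ⊓ θ.ker).FiniteIndex := inferInstance
  obtain ⟨K, hc, hf, hKL, hK⟩ := hMP n ⟨0, hn⟩ k hk (M ⊓ θ.ker) hθn hθf
  refine ⟨K, hc, hf, fun g hg => ?_⟩
  obtain ⟨y, hy⟩ := hK g (FreeGroup.of ⟨0, hn⟩ ^ k) (by rw [map_pow]; exact hg _)
  have h1 : θ g = θ (inc n y) := by
    have : θ (g⁻¹ * inc n y) = 1 := hy.2
    rwa [map_mul, map_inv, inv_mul_eq_one] at this
  have h2 : θ (g * tt n ^ k * g⁻¹ * (tt n ^ k)⁻¹) = 1 := (hKL (hg (tt n))).2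
  rw [map_mul, map_mul, map_mul, map_inv, map_inv, mul_inv_eq_one, mul_inv_eq_iff_eq_mul, h1,
    map_pow] at h2
  have e1 : θ (inc n y) = act0 k (q (inc n y)) := by
    show rotHom k (q.comp (inc n)) (inc n y) = _
    rw [rotHom, homExt_inc]
    rfl
  have e2 : θ (tt n) = rot P k := by
    show rotHom k (q.comp (inc n)) (tt n) = _
    rw [rotHom, homExt_tt]
  rw [e1, e2] at h2
  have hk0 : ((k : ℕ) : ZMod (k + 1)) ≠ 0 := by
    intro h0
    rw [ZMod.natCast_eq_zero_iff] at h0
    have := Nat.le_of_dvd hk h0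
    omega
  have h3 := DFunLike.congr_fun h2 ((0 : ZMod (k + 1)), (1 : P))
  rw [Equiv.Perm.mul_apply, Equiv.Perm.mul_apply, rot_pow, act0_zero, rot_pow, zero_add,
    act0_ne k _ _ hk0, mul_one] at h3
  have h4 : q (inc n y) = 1 := (congrArg Prod.snd h3).symm
  have h5 : q g = 1 := by
    have : q (g⁻¹ * inc n y) = 1 := (QuotientGroup.eq_one_iff _).2 hy.1
    rw [map_mul, map_inv, inv_mul_eq_one] at this
    rw [this]
    exact h4
  exact (QuotientGroup.eq_one_iff _).1 h5

end Pool.Agent.V5helper7.AS
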